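import Mathlib

/-!
# MP_166f70_co: a sign pattern of minimum rank `r` and rational minimum rank `r + 1`, every `r ≥ 3`

The base pattern (`r = 3`) is the one of the frozen negation: ten points and twelve lines, each line
with exactly three of the points, whose incidences force the golden ratio. Here: every ordered field,
a rational matrix of rank `4` with the same pattern, and padding to every `r ≥ 3`.
-/

set_option autoImplicit false

namespace Ins166f70

/-- Points: coordinates are `Pa i k + Pb i k * φ`. -/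
def Pa : Matrix (Fin 10) (Fin 3) ℤ :=
  !![0, 1, -1; 1, 0, 0; 1, 1, 0; 1, 1, 0; 1, 1, 1; 0, 1, 1; 0, 1, 0; 0, 0, 1; 0, 1, 0; 1, 1, -1]

def Pb : Matrix (Fin 10) (Fin 3) ℤ :=
  !![1, 0, 1; 0, 0, 0; 0, 0, 0; 1, 0, 1; 0, 0, 0; 1, 0, 0; 0, 0, 0; 0, 0, 0; 0, 0, 1; 1, 0, 1]

/-- Lines: coordinates are `La k j + Lb k j * φ`. -/
def La : Matrix (Fin 3) (Fin 12) ℤ :=
  !![0, 1, -1, 1, 0, 0, 0, 1, 1, 1, -1, 1;
     1, -1, 0, 0, 0, 0, 1, -1, 0, -1, -1, 0;
     1, -1, 1, 0, 1, 1, -1, 0, 0, 0, 0, 0]

def Lb : Matrix (Fin 3) (Fin 12) ℤ :=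
  !![0, 0, 1, 0, 0, 0, 0, 0, 0, 0, 1, 0;
     -1, 0, -1, -1, 0, -1, 0, 0, 0, -1, -1, 0;
     0, 0, 0, 0, 0, 0, 0, 0, -1, 0, 1, 0]

def Ba : Matrix (Fin 10) (Fin 12) ℤ := Pa * La + Pb * Lb

def Bb : Matrix (Fin 10) (Fin 12) ℤ := Pa * Lb + Pb * La + Pb * Lb

/-- The sign of `x + y * φ` (correct for the small pairs met here). -/
def sg (x y : ℤ) : SignType :=
  if x = 0 ∧ y = 0 then 0 else if 0 < 1000 * x + 1618 * y ∧ 0 < 1000 * x + 1619 * y then 1 else -1

def okp (x y : ℤ) : Prop :=
  (x = 0 ∧ y = 0) ∨ (0 < 1000 * x + 1618 * y ∧ 0 < 1000 * x + 1619 * y) ∨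
    (1000 * x + 1618 * y < 0 ∧ 1000 * x + 1619 * y < 0)

instance (x y : ℤ) : Decidable (okp x y) := by unfold okp; infer_instance

/-- The sign pattern. -/
def A : Matrix (Fin 10) (Fin 12) SignType := fun i j => sg (Ba i j) (Bb i j)

theorem ok_all : ∀ i j, okp (Ba i j) (Bb i j) := by decide +kernel


section OrderedField

variable {K : Type*} [Field K] [LinearOrder K] [IsStrictOrderedRing K]

theorem φ_lo {φ : K} (h : φ * φ = φ + 1) (h0 : 0 < φ) : (1618 : K) / 1000 < φ := by
  by_contra hc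
  push Not at hc
  have h1 : φ * φ ≤ (1618 / 1000) * φ := mul_le_mul_of_nonneg_right hc h0.le
  rw [h] at h1
  linarith

theorem φ_hi {φ : K} (h : φ * φ = φ + 1) (h0 : 0 < φ) : φ < (1619 : K) / 1000 := by
  by_contra hc
  push Not at hc
  have h1 : (1619 / 1000) * φ ≤ φ * φ := mul_le_mul_of_nonneg_right hc h0.le
  rw [h] at h1
  linarith

theorem sign_eq {φ : K} (h1 : (1618 : K) / 1000 < φ) (h2 : φ < (1619 : K) / 1000) (x y : ℤ)
    (h : okp x y) : SignType.sign ((x : K) + y * φ) = sg x y := by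
  rcases h with ⟨hx, hy⟩ | ⟨ha, hb⟩ | ⟨ha, hb⟩
  · subst hx hy; simp [sg]
  · have hne : ¬ (x = 0 ∧ y = 0) := by rintro ⟨rfl, rfl⟩; simp at ha
    have : sg x y = 1 := by unfold sg; rw [if_neg hne, if_pos ⟨ha, hb⟩]
    rw [this, sign_eq_one_iff]
    have ha' : (0 : K) < 1000 * x + 1618 * y := by exact_mod_cast ha
    have hb' : (0 : K) < 1000 * x + 1619 * y := by exact_mod_cast hb
    rcases le_total 0 y with hy | hy
    · have hy' : (0 : K) ≤ y := by exact_mod_cast hy
      nlinarith
    · have hy' : (y : K) ≤ 0 := by exact_mod_cast hy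
      nlinarith
  · have hne : ¬ (x = 0 ∧ y = 0) := by rintro ⟨rfl, rfl⟩; simp at ha
    have hnp : ¬ (0 < 1000 * x + 1618 * y ∧ 0 < 1000 * x + 1619 * y) := by
      rintro ⟨h3, -⟩; omega
    have : sg x y = -1 := by unfold sg; rw [if_neg hne, if_neg hnp]
    rw [this, sign_eq_neg_one_iff]
    have ha' : 1000 * (x : K) + 1618 * y < 0 := by exact_mod_cast ha
    have hb' : 1000 * (x : K) + 1619 * y < 0 := by exact_mod_cast hb
    rcases le_total 0 y with hy | hy
    · have hy' : (0 : K) ≤ y := by exact_mod_cast hy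
      nlinarith
    · have hy' : (y : K) ≤ 0 := by exact_mod_cast hy
      nlinarith

/-- Over an ordered field that contains the golden ratio the pattern has a matrix of rank `3`. -/
theorem exists_three {φ : K} (h : φ * φ = φ + 1) (h0 : 0 < φ) :
    ∃ B : Matrix (Fin 10) (Fin 12) K, (∀ i j, SignType.sign (B i j) = A i j) ∧ B.rank ≤ 3 := by
  set PR : Matrix (Fin 10) (Fin 3) K := fun i k => (Pa i k : K) + Pb i k * φ with hPR
  set LR : Matrix (Fin 3) (Fin 12) K := fun k j => (La k j : K) + Lb k j * φ with hLR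
  refine ⟨PR * LR, ?_, ?_⟩
  · intro i j
    have h1 : (PR * LR) i j = (Ba i j : K) + Bb i j * φ := by
      simp only [Ba, Bb, Matrix.mul_apply, Matrix.add_apply, Fin.sum_univ_three, hPR, hLR]
      push_cast
      linear_combination ((Pb i 0 : K) * Lb 0 j + Pb i 1 * Lb 1 j + Pb i 2 * Lb 2 j) * h
    rw [h1, sign_eq (φ_lo h h0) (φ_hi h h0) _ _ (ok_all i j)]
    rfl
  · calc (PR * LR).rank ≤ PR.rank := Matrix.rank_mul_le_left _ _
      _ ≤ 3 := by simpa using Matrix.rank_le_card_width PR

/-- Ten integral points of `P³`. -/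
def P4 : Matrix (Fin 10) (Fin 4) ℤ :=
  !![3, 2, 1, 1; 1, 0, 0, -2; 1, 1, 0, 2; 5, 2, 3, 2; 1, 1, 1, 1; 3, 2, 2, 1; 0, 1, 0, 1; 0, 0, 1, 1; 0, 2, 3, 2; 5, 2, 1, -1]

/-- Twelve planes of `P³`. -/
def L4 : Matrix (Fin 4) (Fin 12) ℤ :=
  !![0, 1, 1, 2, 0, 0, 0, 1, 3, 2, 1, 1; -1, -1, -2, -3, 0, -3, 1, -1, 1, -5, -5, 0; 2, -1, 2, 0, 1, 2, -1, 0, -5, 0, 4, 0; 0, 0, -1, 0, 0, 0, 0, 0, -1, 0, -1, 0]

theorem sign_four : ∀ i j, SignType.sign ((P4 * L4) i j) = A i j := by decide +kernel

/-- Over every ordered field the pattern has a matrix of rank at most `4`. -/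
theorem exists_four : ∃ B : Matrix (Fin 10) (Fin 12) K,
    (∀ i j, SignType.sign (B i j) = A i j) ∧ B.rank ≤ 4 := by
  refine ⟨P4.map (Int.castRingHom K) * L4.map (Int.castRingHom K), ?_, ?_⟩
  · intro i j
    rw [← Matrix.map_mul, Matrix.map_apply, eq_intCast, sign_intCast]
    exact sign_four i j
  · calc (P4.map (Int.castRingHom K) * L4.map (Int.castRingHom K)).rank
        ≤ (P4.map (Int.castRingHom K)).rank := Matrix.rank_mul_le_left _ _
      _ ≤ 4 := by simpa using Matrix.rank_le_card_width (P4.map (Int.castRingHom K))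

end OrderedField

/-- The three reference rows `1, 6, 7` of any matrix with this zero pattern are independent;
more precisely the submatrix on rows `1,6,7` and columns `11,0,4` is triangular. -/
theorem three_le_rank {K : Type*} [Field K] (C : Matrix (Fin 10) (Fin 12) K)
    (hC : ∀ i j, C i j = 0 ↔ A i j = 0) : 3 ≤ C.rank := by
  have h1 : (C.submatrix ![1, 6, 7] ![11, 0, 4]).det ≠ 0 := by
    rw [Matrix.det_fin_three]
    simp only [Matrix.submatrix_apply, Matrix.cons_val_zero, Matrix.cons_val_one, Matrix.cons_val]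
    have e1 : C 1 0 = 0 := (hC 1 0).2 (by decide +kernel)
    have e2 : C 1 4 = 0 := (hC 1 4).2 (by decide +kernel)
    have e3 : C 6 11 = 0 := (hC 6 11).2 (by decide +kernel)
    have e4 : C 6 4 = 0 := (hC 6 4).2 (by decide +kernel)
    have n1 : C 1 11 ≠ 0 := fun h => absurd ((hC 1 11).1 h) (by decide +kernel)
    have n2 : C 6 0 ≠ 0 := fun h => absurd ((hC 6 0).1 h) (by decide +kernel)
    have n3 : C 7 4 ≠ 0 := fun h => absurd ((hC 7 4).1 h) (by decide +kernel)
    rw [e1, e2, e3, e4]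
    ring_nf
    exact mul_ne_zero (mul_ne_zero n1 n2) n3
  have h2 := Matrix.rank_of_det_ne_zero h1
  have h3 := Matrix.rank_submatrix_le C ![1, 6, 7] ![11, 0, 4]
  rw [h2] at h3
  simpa using h3

theorem lin_indep {K : Type*} [Field K] (C : Matrix (Fin 10) (Fin 12) K)
    (hC : ∀ i j, C i j = 0 ↔ A i j = 0) : LinearIndependent K ![C 1, C 6, C 7] := by
  have e1 : C 1 0 = 0 := (hC 1 0).2 (by decide +kernel)
  have e2 : C 1 4 = 0 := (hC 1 4).2 (by decide +kernel)
  have e3 : C 6 11 = 0 := (hC 6 11).2 (by decide +kernel)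
  have e4 : C 6 4 = 0 := (hC 6 4).2 (by decide +kernel)
  have e5 : C 7 11 = 0 := (hC 7 11).2 (by decide +kernel)
  have n1 : C 1 11 ≠ 0 := fun h => absurd ((hC 1 11).1 h) (by decide +kernel)
  have n2 : C 6 0 ≠ 0 := fun h => absurd ((hC 6 0).1 h) (by decide +kernel)
  have n3 : C 7 4 ≠ 0 := fun h => absurd ((hC 7 4).1 h) (by decide +kernel)
  rw [Fintype.linearIndependent_iff]
  intro g hg
  have k11 := congrFun hg 11
  have k0 := congrFun hg 0
  have k4 := congrFun hg 4
  simp [Fin.sum_univ_three, e1, e2, e3, e4, e5, n1, n3] at k11 k0 k4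
  have g2 : g 2 = 0 := k4
  have g0 : g 0 = 0 := k11
  have g1 : g 1 = 0 := by
    rw [g2] at k0; simpa [n2] using k0
  intro i
  fin_cases i
  · exact g0
  · exact g1
  · exact g2

theorem row_comb {K : Type*} [Field K] (C : Matrix (Fin 10) (Fin 12) K)
    (hC : ∀ i j, C i j = 0 ↔ A i j = 0) (hr : C.rank = 3) :
    ∃ x y z : Fin 10 → K, ∀ i j, C i j = x i * C 1 j + y i * C 6 j + z i * C 7 j := by
  have hli := lin_indep C hC
  have hle : Submodule.span K (Set.range ![C 1, C 6, C 7]) ≤ Submodule.span K (Set.range C.row) := by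
    apply Submodule.span_mono
    rintro _ ⟨k, rfl⟩
    fin_cases k
    · exact ⟨1, rfl⟩
    · exact ⟨6, rfl⟩
    · exact ⟨7, rfl⟩
  have hfr : Module.finrank K (Submodule.span K (Set.range ![C 1, C 6, C 7])) =
      Module.finrank K (Submodule.span K (Set.range C.row)) := by
    rw [← Matrix.rank_eq_finrank_span_row, hr, finrank_span_eq_card hli]; rfl
  have heq := Submodule.eq_of_le_of_finrank_eq hle hfr
  have hex : ∀ i, ∃ g : Fin 3 → K, ∑ k, g k • ![C 1, C 6, C 7] k = C i := by
    intro i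
    have : C i ∈ Submodule.span K (Set.range ![C 1, C 6, C 7]) := by
      rw [heq]; exact Submodule.subset_span ⟨i, rfl⟩
    exact (Submodule.mem_span_range_iff_exists_fun K).1 this
  choose g hg using hex
  refine ⟨fun i => g i 0, fun i => g i 1, fun i => g i 2, fun i j => ?_⟩
  have := congrFun (hg i) j
  simp [Fin.sum_univ_three] at this
  exact this.symm

/-- The incidences force the golden ratio equation. -/
theorem golden {K : Type*} [Field K] (C : Matrix (Fin 10) (Fin 12) K)
    (hC : ∀ i j, C i j = 0 ↔ A i j = 0) (hr : C.rank = 3) : ∃ s : K, s * s = s + 1 := by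
  obtain ⟨x, y, z, H⟩ := row_comb C hC hr
  -- zero coordinates of the lines
  have a0 : C 1 0 = 0 := (hC 1 0).2 (by decide +kernel)
  have c3 : C 7 3 = 0 := (hC 7 3).2 (by decide +kernel)
  have a4 : C 1 4 = 0 := (hC 1 4).2 (by decide +kernel)
  have b4 : C 6 4 = 0 := (hC 6 4).2 (by decide +kernel)
  have a5 : C 1 5 = 0 := (hC 1 5).2 (by decide +kernel)
  have a6 : C 1 6 = 0 := (hC 1 6).2 (by decide +kernel)
  have c7 : C 7 7 = 0 := (hC 7 7).2 (by decide +kernel)
  have b8 : C 6 8 = 0 := (hC 6 8).2 (by decide +kernel)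
  have c9 : C 7 9 = 0 := (hC 7 9).2 (by decide +kernel)
  have b11 : C 6 11 = 0 := (hC 6 11).2 (by decide +kernel)
  have c11 : C 7 11 = 0 := (hC 7 11).2 (by decide +kernel)
  have N : ∀ i j, A i j ≠ 0 → C i j ≠ 0 := fun i j h h0 => h ((hC i j).1 h0)
  -- nonzero first and third coordinates of the points
  have hx : ∀ i, A i 11 ≠ 0 → x i ≠ 0 := by
    intro i hi h0
    have h1 := H i 11
    rw [h0, b11, c11] at h1
    exact N i 11 hi (by rw [h1]; ring)
  have hz : ∀ i, A i 4 ≠ 0 → z i ≠ 0 := by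
    intro i hi h0
    have h1 := H i 4
    rw [h0, a4, b4] at h1
    exact N i 4 hi (by rw [h1]; ring)
  -- nonzero second coordinates
  have hy1 : ∀ i j, A i j = 0 → C 7 j = 0 → A i 11 ≠ 0 → A 1 j ≠ 0 → y i ≠ 0 := by
    intro i j hij hc hi h1j h0
    have h1 := H i j
    rw [h0, hc, (hC i j).2 hij] at h1
    have h2 : x i * C 1 j = 0 := by rw [h1]; ring
    exact mul_ne_zero (hx i hi) (N 1 j h1j) h2
  have hy3 : ∀ i j, A i j = 0 → C 1 j = 0 → A i 4 ≠ 0 → A 7 j ≠ 0 → y i ≠ 0 := by
    intro i j hij hc hi h1j h0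
    have h1 := H i j
    rw [h0, hc, (hC i j).2 hij] at h1
    have h2 : z i * C 7 j = 0 := by rw [h1]; ring
    exact mul_ne_zero (hz i hi) (N 7 j h1j) h2
  have y0 : y 0 ≠ 0 := hy1 0 3 (by decide +kernel) c3 (by decide +kernel) (by decide +kernel)
  have y5 : y 5 ≠ 0 := hy1 5 3 (by decide +kernel) c3 (by decide +kernel) (by decide +kernel)
  have y2 : y 2 ≠ 0 := hy1 2 7 (by decide +kernel) c7 (by decide +kernel) (by decide +kernel)
  have y4 : y 4 ≠ 0 := hy1 4 7 (by decide +kernel) c7 (by decide +kernel) (by decide +kernel)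
  have y3 : y 3 ≠ 0 := hy1 3 9 (by decide +kernel) c9 (by decide +kernel) (by decide +kernel)
  have y9 : y 9 ≠ 0 := hy1 9 9 (by decide +kernel) c9 (by decide +kernel) (by decide +kernel)
  have y8 : y 8 ≠ 0 := hy3 8 5 (by decide +kernel) a5 (by decide +kernel) (by decide +kernel)
  have x0 := hx 0 (by decide +kernel)
  have x4 := hx 4 (by decide +kernel)
  have x5 := hx 5 (by decide +kernel)
  have z4 := hz 4 (by decide +kernel)
  have z8 := hz 8 (by decide +kernel)
  -- normalised coordinates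
  obtain ⟨X, hX⟩ : ∃ X : Fin 10 → K, ∀ i, X i = x i / y i := ⟨fun i => x i / y i, fun i => rfl⟩
  obtain ⟨Z, hZ⟩ : ∃ Z : Fin 10 → K, ∀ i, Z i = z i / y i := ⟨fun i => z i / y i, fun i => rfl⟩
  have R : ∀ i j, y i ≠ 0 → A i j = 0 → X i * C 1 j + C 6 j + Z i * C 7 j = 0 := by
    intro i j hi hij
    have h1 := H i j
    rw [(hC i j).2 hij] at h1
    rw [hX, hZ]
    field_simp
    linear_combination -h1
  have X8 : X 8 = 0 := by
    have h1 := R 8 11 y8 (by decide +kernel)
    rw [b11, c11] at h1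
    have h2 : X 8 * C 1 11 = 0 := by linear_combination h1
    exact (mul_eq_zero.1 h2).resolve_right (N 1 11 (by decide +kernel))
  have Z2 : Z 2 = 0 := by
    have h1 := R 2 4 y2 (by decide +kernel)
    rw [a4, b4] at h1
    have h2 : Z 2 * C 7 4 = 0 := by linear_combination h1
    exact (mul_eq_zero.1 h2).resolve_right (N 7 4 (by decide +kernel))
  have eqX : ∀ i k j, y i ≠ 0 → y k ≠ 0 → A i j = 0 → A k j = 0 → C 7 j = 0 → A 1 j ≠ 0 →
      X i = X k := by
    intro i k j hi hk hij hkj hc h1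
    have h2 := R i j hi hij
    have h3 := R k j hk hkj
    rw [hc] at h2 h3
    apply mul_right_cancel₀ (N 1 j h1)
    linear_combination h2 - h3
  have eqZ : ∀ i k j, y i ≠ 0 → y k ≠ 0 → A i j = 0 → A k j = 0 → C 1 j = 0 → A 7 j ≠ 0 →
      Z i = Z k := by
    intro i k j hi hk hij hkj hc h1
    have h2 := R i j hi hij
    have h3 := R k j hk hkj
    rw [hc] at h2 h3
    apply mul_right_cancel₀ (N 7 j h1)
    linear_combination h2 - h3
  have r7 : X 2 = X 4 := eqX 2 4 7 y2 y4 (by decide +kernel) (by decide +kernel) c7 (by decide +kernel)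
  have r3 : X 0 = X 5 := eqX 0 5 3 y0 y5 (by decide +kernel) (by decide +kernel) c3 (by decide +kernel)
  have r9 : X 9 = X 3 := eqX 9 3 9 y9 y3 (by decide +kernel) (by decide +kernel) c9 (by decide +kernel)
  have r6 : Z 5 = Z 4 := eqZ 5 4 6 y5 y4 (by decide +kernel) (by decide +kernel) a6 (by decide +kernel)
  have r0 : Z 9 = Z 0 := eqZ 9 0 0 y9 y0 (by decide +kernel) (by decide +kernel) a0 (by decide +kernel)
  have r5 : Z 3 = Z 8 := eqZ 3 8 5 y3 y8 (by decide +kernel) (by decide +kernel) a5 (by decide +kernel)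
  have r8 : X 3 * Z 5 = X 5 * Z 3 := by
    have h2 := R 3 8 y3 (by decide +kernel)
    have h3 := R 5 8 y5 (by decide +kernel)
    rw [b8] at h2 h3
    apply mul_right_cancel₀ (N 1 8 (by decide +kernel))
    linear_combination Z 5 * h2 - Z 3 * h3
  have r1 : (X 0 - X 2) * Z 3 = (X 3 - X 2) * Z 0 := by
    have h1 := R 0 1 y0 (by decide +kernel)
    have h2 := R 2 1 y2 (by decide +kernel)
    have h3 := R 3 1 y3 (by decide +kernel)
    rw [Z2] at h2
    apply mul_right_cancel₀ (N 1 1 (by decide +kernel))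
    linear_combination Z 3 * (h1 - h2) - Z 0 * (h3 - h2)
  have r2 : X 0 * (Z 4 - Z 8) = X 4 * (Z 0 - Z 8) := by
    have h1 := R 0 2 y0 (by decide +kernel)
    have h2 := R 4 2 y4 (by decide +kernel)
    have h3 := R 8 2 y8 (by decide +kernel)
    rw [X8] at h3
    apply mul_right_cancel₀ (N 1 2 (by decide +kernel))
    linear_combination (Z 4 - Z 8) * (h1 - h3) - (Z 0 - Z 8) * (h2 - h3)
  have r10 : X 5 * (Z 9 - Z 8) = X 9 * (Z 5 - Z 8) := by
    have h1 := R 5 10 y5 (by decide +kernel)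
    have h2 := R 9 10 y9 (by decide +kernel)
    have h3 := R 8 10 y8 (by decide +kernel)
    rw [X8] at h3
    apply mul_right_cancel₀ (N 1 10 (by decide +kernel))
    linear_combination (Z 9 - Z 8) * (h1 - h3) - (Z 5 - Z 8) * (h2 - h3)
  have hne : Z 4 - Z 8 ≠ 0 := by
    intro h
    have h1 := R 4 6 y4 (by decide +kernel)
    have h2 : X 8 * C 1 6 + C 6 6 + Z 8 * C 7 6 = 0 := by
      rw [a6] at h1 ⊢; linear_combination h1 - h * C 7 6
    apply N 8 6 (by decide +kernel)
    rw [H 8 6, a6]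
    rw [a6, hZ 8] at h2
    field_simp at h2
    linear_combination h2
  have u0 : X 4 ≠ 0 := by rw [hX]; exact div_ne_zero x4 y4
  have p0 : X 5 ≠ 0 := by rw [hX]; exact div_ne_zero x5 y5
  have v0 : Z 4 ≠ 0 := by rw [hZ]; exact div_ne_zero z4 y4
  have e0 : Z 8 ≠ 0 := by rw [hZ]; exact div_ne_zero z8 y8
  rw [r3, r7, r5] at r1
  rw [r3] at r2
  rw [r0, r9, r6] at r10
  rw [r6, r5] at r8
  generalize X 4 = u at *
  generalize X 5 = p at *
  generalize Z 4 = v at *
  generalize Z 8 = e at *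
  generalize X 3 = f at *
  generalize Z 0 = q at *
  -- r8 : f * v = p * e, r10 : p * (q - e) = f * (v - e), r2 : p * (v - e) = u * (q - e)
  -- r1 : (p - u) * e = (f - u) * q
  have s1 : v * (q - e) = e * (v - e) := by
    apply mul_left_cancel₀ p0
    linear_combination v * r10 + (v - e) * r8
  have s2 : v * p = u * e := by
    apply mul_left_cancel₀ hne
    linear_combination v * r2 + u * s1
  have s3 : v * v * f = u * e * e := by
    linear_combination v * r8 + e * s2
  have s4 : (e - v) * (v * v * e) = (e * e - v * v) * (v * q) := by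
    apply mul_left_cancel₀ u0
    linear_combination v * v * v * r1 - v * v * e * s2 + v * q * s3
  have s5 : v * v * e = (e + v) * (v * q) := by
    apply mul_left_cancel₀ hne
    linear_combination -s4
  have s6 : v * v = (e + v) * (2 * v - e) := by
    apply mul_left_cancel₀ e0
    linear_combination s5 + (e + v) * s1
  refine ⟨e / v, ?_⟩
  field_simp
  linear_combination s6


/-! ### padding -/

/-- A new first row `(1, 0, ..., 0)` and a new first column of ones. -/
def pad {α : Type*} [Zero α] [One α] {m n : ℕ} (M : Matrix (Fin m) (Fin n) α) :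
    Matrix (Fin (m + 1)) (Fin (n + 1)) α :=
  fun i j => Fin.cases (Fin.cases 1 (fun _ => 0) j) (fun i' => Fin.cases 1 (fun j' => M i' j') j) i

section

variable {α : Type*} [Zero α] [One α] {m n : ℕ} (M : Matrix (Fin m) (Fin n) α)

@[simp] theorem pad_zero_zero : pad M 0 0 = 1 := rfl

@[simp] theorem pad_zero_succ (j : Fin n) : pad M 0 j.succ = 0 := rfl

@[simp] theorem pad_succ_zero (i : Fin m) : pad M i.succ 0 = 1 := rfl

@[simp] theorem pad_succ_succ (i : Fin m) (j : Fin n) : pad M i.succ j.succ = M i j := rfl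

end

theorem rank_succ {F : Type*} [Field F] {m n : ℕ} (M : Matrix (Fin (m + 1)) (Fin (n + 1)) F)
    (h0 : M 0 0 ≠ 0) (h1 : ∀ j : Fin n, M 0 j.succ = 0) :
    M.rank = (M.submatrix Fin.succ Fin.succ).rank + 1 := by
  set C : Matrix (Fin m) (Fin n) F := M.submatrix Fin.succ Fin.succ with hC
  have e1 := LinearMap.finrank_range_add_finrank_ker M.mulVecLin
  have e2 := LinearMap.finrank_range_add_finrank_ker C.mulVecLin
  rw [Module.finrank_fin_fun] at e1 e2
  let f : (Fin n → F) →ₗ[F] (Fin (n + 1) → F) :=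
    { toFun := fun w => Fin.cons 0 w
      map_add' := by
        intro x y
        ext i
        refine Fin.cases ?_ (fun j => ?_) i <;> simp
      map_smul' := by
        intro c x
        ext i
        refine Fin.cases ?_ (fun j => ?_) i <;> simp }
  have hf : Function.Injective f := by
    intro x y hxy
    ext j
    have := congrFun hxy j.succ
    simpa [f] using this
  have hmap : Submodule.map f (LinearMap.ker C.mulVecLin) = LinearMap.ker M.mulVecLin := by
    ext v
    simp only [Submodule.mem_map, LinearMap.mem_ker, Matrix.mulVecLin_apply]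
    constructor
    · rintro ⟨w, hw, rfl⟩
      ext i
      refine Fin.cases ?_ (fun k => ?_) i
      · simp [Matrix.mulVec, dotProduct, Fin.sum_univ_succ, f, h1]
      · have := congrFun hw k
        simpa [Matrix.mulVec, dotProduct, Fin.sum_univ_succ, f, hC] using this
    · intro hv
      have hv0 : v 0 = 0 := by
        have := congrFun hv 0
        simp only [Matrix.mulVec, dotProduct, Fin.sum_univ_succ, h1, zero_mul,
          Finset.sum_const_zero, add_zero, Pi.zero_apply] at this
        exact (mul_eq_zero.1 this).resolve_left h0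
      refine ⟨fun j => v j.succ, ?_, ?_⟩
      · ext k
        have := congrFun hv k.succ
        simpa [Matrix.mulVec, dotProduct, Fin.sum_univ_succ, hC, hv0] using this
      · ext i
        refine Fin.cases ?_ (fun k => ?_) i
        · simp [f, hv0]
        · simp [f]
  have hfin : Module.finrank F (LinearMap.ker M.mulVecLin) =
      Module.finrank F (LinearMap.ker C.mulVecLin) := by
    rw [← hmap]
    exact (Submodule.equivMapOfInjective f hf _).finrank_eq.symm
  have r1 : M.rank = Module.finrank F (LinearMap.range M.mulVecLin) := rfl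
  have r2 : C.rank = Module.finrank F (LinearMap.range C.mulVecLin) := rfl
  rw [r1, r2]
  omega

/-- The patterns: `A` padded `t` times. -/
def AA : (t : ℕ) → Matrix (Fin (t + 10)) (Fin (t + 12)) SignType
  | 0 => A
  | t + 1 => pad (AA t)

theorem low {F : Type*} [Field F] : ∀ (t : ℕ) (C : Matrix (Fin (t + 10)) (Fin (t + 12)) F),
    (∀ i j, C i j = 0 ↔ AA t i j = 0) →
      t + 3 ≤ C.rank ∧ (C.rank = t + 3 → ∃ s : F, s * s = s + 1)
  | 0, C, hC => ⟨three_le_rank C hC, fun h => golden C hC h⟩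
  | t + 1, C, hC => by
    have h0 : C 0 0 ≠ 0 := by
      intro h
      have : (1 : SignType) = 0 := (hC 0 0).1 h
      exact absurd this (by decide)
    have h1 : ∀ j : Fin (t + 12), C 0 j.succ = 0 := fun j => (hC 0 j.succ).2 rfl
    have hr := rank_succ C h0 h1
    have ih := low t (C.submatrix Fin.succ Fin.succ) (fun i j => hC i.succ j.succ)
    refine ⟨by omega, fun h => ih.2 (by omega)⟩

theorem zeros : ∀ (t : ℕ) (j : Fin (t + 12)),
    (Finset.univ.filter (fun i : Fin (t + 10) => AA t i j = 0)).card ≤ t + 3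
  | 0, j => by
    revert j
    decide +kernel
  | t + 1, j => by
    refine Fin.cases ?_ (fun j' => ?_) j
    · have : (Finset.univ.filter (fun i : Fin (t + 1 + 10) => AA (t + 1) i 0 = 0)) = ∅ := by
        apply Finset.filter_eq_empty_iff.2
        intro i _
        refine Fin.cases ?_ (fun k => ?_) i
        · show ¬ ((1 : SignType) = 0)
          decide
        · show ¬ ((1 : SignType) = 0)
          decide
      rw [this]
      simp
    · have ih := zeros t j'
      have h2 := Fin.card_filter_univ_succ (fun i : Fin (t + 10 + 1) => pad (AA t) i j'.succ = 0)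
      have h3 : (Finset.univ.filter (fun i : Fin (t + 1 + 10) => AA (t + 1) i j'.succ = 0)).card =
          (Finset.univ.filter (fun i : Fin (t + 10 + 1) => pad (AA t) i j'.succ = 0)).card := rfl
      rw [h3, h2]
      simp only [pad_zero_succ, pad_succ_succ, if_true]
      omega

section

variable {K : Type*} [Field K] [LinearOrder K] [IsStrictOrderedRing K]

theorem exists_pad {m n : ℕ} {S : Matrix (Fin m) (Fin n) SignType} {r : ℕ}
    (h : ∃ B : Matrix (Fin m) (Fin n) K, (∀ i j, SignType.sign (B i j) = S i j) ∧ B.rank ≤ r) :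
    ∃ B : Matrix (Fin (m + 1)) (Fin (n + 1)) K,
      (∀ i j, SignType.sign (B i j) = pad S i j) ∧ B.rank ≤ r + 1 := by
  obtain ⟨B, hB, hr⟩ := h
  refine ⟨pad B, ?_, ?_⟩
  · intro i j
    refine Fin.cases ?_ (fun i' => ?_) i
    · refine Fin.cases ?_ (fun j' => ?_) j
      · simp
      · simp
    · refine Fin.cases ?_ (fun j' => ?_) j
      · simp
      · simpa using hB i' j'
  · rw [rank_succ (pad B) (by simp) (fun j => by simp)]
    exact Nat.succ_le_succ hr

theorem exists_golden {φ : K} (h : φ * φ = φ + 1) (h0 : 0 < φ) : ∀ t : ℕ,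
    ∃ B : Matrix (Fin (t + 10)) (Fin (t + 12)) K,
      (∀ i j, SignType.sign (B i j) = AA t i j) ∧ B.rank ≤ t + 3
  | 0 => exists_three h h0
  | t + 1 => by
    have := exists_pad (exists_golden h h0 t)
    obtain ⟨B, hB, hr⟩ := this
    exact ⟨B, hB, by omega⟩

theorem exists_any : ∀ t : ℕ, ∃ B : Matrix (Fin (t + 10)) (Fin (t + 12)) K,
      (∀ i j, SignType.sign (B i j) = AA t i j) ∧ B.rank ≤ t + 4
  | 0 => exists_four
  | t + 1 => by
    have := exists_pad (exists_any t)
    obtain ⟨B, hB, hr⟩ := this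
    exact ⟨B, hB, by omega⟩

omit [IsStrictOrderedRing K] in
theorem zero_iff {m n : ℕ} {S : Matrix (Fin m) (Fin n) SignType} {B : Matrix (Fin m) (Fin n) K}
    (h : ∀ i j, SignType.sign (B i j) = S i j) (i : Fin m) (j : Fin n) :
    B i j = 0 ↔ S i j = 0 := by
  rw [← h i j, sign_eq_zero_iff]

end

end Ins166f70
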